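import Pool.Agent.U737.MN.Stm2

/-!
Project MN, package DiffDvd: the different of a compositum.
-/

set_option autoImplicit false

open NumberField Module

namespace Pool.Agent.U55.MN

theorem dual_sum (B E : Type) [Field B] [NumberField B] [Field E] [Algebra ℚ E] [IsAlgClosed E]
    {ι : Type} [Fintype ι] [DecidableEq ι] (b : Basis ι ℚ B) (σ σ' : B →ₐ[ℚ] E) [Decidable (σ' = σ)] :
    ∑ j, σ (b j) * σ' (b.traceDual j) = if σ' = σ then 1 else 0 := by
  classical
  let M : Matrix ι (B →ₐ[ℚ] E) E := fun j σ => σ (b j)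
  let M' : Matrix (B →ₐ[ℚ] E) ι E := fun σ j => σ (b.traceDual j)
  have h : M * M' = 1 := by
    ext i j
    rw [Matrix.mul_apply]
    change ∑ σ : B →ₐ[ℚ] E, σ (b i) * σ (b.traceDual j) = _
    simp only [← map_mul]
    rw [← trace_eq_sum_embeddings E, b.trace_mul_traceDual, Matrix.one_apply]
    split_ifs <;> simp
  have hc : Fintype.card ι = Fintype.card (B →ₐ[ℚ] E) := by
    rw [AlgHom.card, Module.finrank_eq_card_basis b]
  have h2 := (Matrix.mul_eq_one_comm_of_equiv (Fintype.equivOfCardEq hc)).1 h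
  have h3 := congrFun (congrFun h2 σ') σ
  rw [Matrix.mul_apply, Matrix.one_apply] at h3
  have h4 : (if σ' = σ then (1 : E) else 0) = ∑ j, M' σ' j * M j σ := by
    rw [h3]
    congr
  rw [h4]
  exact Finset.sum_congr rfl fun j _ => mul_comm _ _

theorem key (A B N : Type) [Field A] [NumberField A] [Field B] [NumberField B] [Field N]
    [NumberField N] [Algebra A N] [Algebra B N]
    (h : ∀ S : Subfield N, (algebraMap A N).fieldRange ≤ S → (algebraMap B N).fieldRange ≤ S → S = ⊤)
    {ι : Type} [Fintype ι] [DecidableEq ι] (b : Basis ι ℚ B) (x : N) :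
    x = ∑ j, algebraMap A N (Algebra.trace A N (x * algebraMap B N (b j))) *
      algebraMap B N (b.traceDual j) := by
  classical
  let E := AlgebraicClosure N
  haveI : FiniteDimensional A N := Module.Finite.of_restrictScalars_finite ℚ A N
  apply (algebraMap N E).injective
  rw [map_sum]
  have h1 : ∀ j, algebraMap N E (algebraMap A N (Algebra.trace A N (x * algebraMap B N (b j))) *
      algebraMap B N (b.traceDual j)) = ∑ τ : N →ₐ[A] E, τ x * (τ (algebraMap B N (b j)) *
        algebraMap N E (algebraMap B N (b.traceDual j))) := by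
    intro j
    rw [map_mul, ← IsScalarTower.algebraMap_apply A N E, trace_eq_sum_embeddings E, Finset.sum_mul]
    refine Finset.sum_congr rfl fun τ _ => ?_
    rw [map_mul, mul_assoc]
  simp only [h1]
  rw [Finset.sum_comm]
  simp only [← Finset.mul_sum]
  have h2 : ∀ τ : N →ₐ[A] E, ∑ j, τ (algebraMap B N (b j)) *
      algebraMap N E (algebraMap B N (b.traceDual j)) =
      if τ = IsScalarTower.toAlgHom A N E then 1 else 0 := by
    intro τ
    let σ : B →ₐ[ℚ] E := ((τ : N →+* E).comp (algebraMap B N)).toRatAlgHom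
    let σ' : B →ₐ[ℚ] E := ((algebraMap N E).comp (algebraMap B N)).toRatAlgHom
    have h3 := dual_sum B E b σ σ'
    refine Eq.trans h3 ?_
    by_cases hτ : τ = IsScalarTower.toAlgHom A N E
    · rw [if_pos hτ, if_pos]
      subst hτ
      rfl
    · rw [if_neg hτ, if_neg]
      intro hσ
      apply hτ
      have hS := h ((τ : N →+* E).eqLocusField (algebraMap N E)) ?_ ?_
      · ext y
        have : y ∈ ((τ : N →+* E).eqLocusField (algebraMap N E)) := by rw [hS]; trivial
        exact this
      · rintro _ ⟨a, rfl⟩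
        change τ (algebraMap A N a) = algebraMap N E (algebraMap A N a)
        rw [AlgHom.commutes, IsScalarTower.algebraMap_apply A N E]
      · rintro _ ⟨c, rfl⟩
        exact (congrArg (fun f : B →ₐ[ℚ] E => f c) hσ).symm
  simp only [h2, mul_ite, mul_one, mul_zero, Finset.sum_ite_eq', Finset.mem_univ, if_true]
  rfl

theorem t_DiffDvd : Pool.Agent.U737.MN.DiffDvd := by
  intro A B N _ _ _ _ _ _ _ _ h
  classical
  haveI : FiniteDimensional A N := Module.Finite.of_restrictScalars_finite ℚ A N
  rw [Ideal.dvd_iff_le, Ideal.map_le_iff_le_comap]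
  intro d hd
  rw [Ideal.mem_comap]
  have hdB : ∀ y ∈ Submodule.traceDual ℤ ℚ (1 : Submodule (𝓞 B) B),
      ∃ z : 𝓞 B, algebraMap (𝓞 B) B z = algebraMap (𝓞 B) B d * y := by
    intro y hy
    have h1 : algebraMap (𝓞 B) B d ∈ IsLocalization.coeSubmodule B (differentIdeal ℤ (𝓞 B)) :=
      ⟨d, hd, rfl⟩
    rw [coeSubmodule_differentIdeal ℤ ℚ] at h1
    have h2 := Submodule.mem_div_iff_forall_mul_mem.1 h1 y hy
    exact Submodule.mem_one.1 h2
  have hN : algebraMap (𝓞 N) N (algebraMap (𝓞 B) (𝓞 N) d) ∈
      IsLocalization.coeSubmodule N (differentIdeal (𝓞 A) (𝓞 N)) := by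
    rw [coeSubmodule_differentIdeal (𝓞 A) A, Submodule.mem_div_iff_forall_mul_mem]
    intro x hx
    rw [Submodule.mem_one]
    have hb : (1 : Submodule (𝓞 B) B).restrictScalars ℤ =
        Submodule.span ℤ (Set.range (integralBasis B)) := by
      ext y
      rw [mem_span_integralBasis, Submodule.restrictScalars_mem, Submodule.mem_one]
      rfl
    have hdual : ∀ j, (integralBasis B).traceDual j ∈
        Submodule.traceDual ℤ ℚ (1 : Submodule (𝓞 B) B) := by
      intro j
      have h2 := Submodule.traceDual_span_of_basis (A := ℤ) (1 : Submodule (𝓞 B) B)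
        (integralBasis B) hb
      rw [← Submodule.restrictScalars_mem ℤ, h2]
      exact Submodule.subset_span ⟨j, rfl⟩
    have htr : ∀ j, ∃ c : 𝓞 A, algebraMap (𝓞 A) A c =
        Algebra.trace A N (x * algebraMap B N (integralBasis B j)) := by
      intro j
      have h3 := Submodule.mem_traceDual.1 hx (algebraMap B N (integralBasis B j)) (by
        rw [Submodule.mem_one]
        refine ⟨algebraMap (𝓞 B) (𝓞 N) (RingOfIntegers.basis B j), ?_⟩
        rw [integralBasis_apply]
        rfl)
      exact h3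
    choose c hc using htr
    choose z hz using fun j => hdB _ (hdual j)
    refine ⟨∑ j, algebraMap (𝓞 A) (𝓞 N) (c j) * algebraMap (𝓞 B) (𝓞 N) (z j), ?_⟩
    have hx2 := key A B N h (integralBasis B) x
    conv_rhs => rw [hx2]
    rw [map_sum, Finset.mul_sum]
    refine Finset.sum_congr rfl fun j _ => ?_
    rw [map_mul]
    have e1 : algebraMap (𝓞 N) N (algebraMap (𝓞 A) (𝓞 N) (c j)) =
        algebraMap A N (Algebra.trace A N (x * algebraMap B N (integralBasis B j))) := by
      rw [← hc j]; rfl
    have e2 : algebraMap (𝓞 N) N (algebraMap (𝓞 B) (𝓞 N) (z j)) =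
        algebraMap (𝓞 N) N (algebraMap (𝓞 B) (𝓞 N) d) *
          algebraMap B N ((integralBasis B).traceDual j) := by
      have : algebraMap (𝓞 N) N (algebraMap (𝓞 B) (𝓞 N) (z j)) =
        algebraMap B N (algebraMap (𝓞 B) B (z j)) := rfl
      rw [this, hz j, map_mul]
      rfl
    rw [e1, e2]
    ring
  obtain ⟨e, he, he'⟩ := hN
  have : e = algebraMap (𝓞 B) (𝓞 N) d := FaithfulSMul.algebraMap_injective (𝓞 N) N he'
  rwa [← this]

end Pool.Agent.U55.MN
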